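import Mathlib
import Pool.Agent.U765.OC.Stm

set_option autoImplicit false

/-!
Package RING of project OC (MP_020e9d_co): `m` rings of `m` circles, and `m` concentric circles.
-/

namespace Pool.Agent.U324.OC.RING

open Real Finset

/-! ### Angles -/

lemma cos_le_of {α y : ℝ} (h0 : 0 ≤ α) (h1 : α ≤ y) (h2 : y ≤ 2 * π - α) : cos y ≤ cos α := by
  rcases le_total y π with h | h
  · exact Real.cos_le_cos_of_nonneg_of_le_pi h0 h h1
  · have e : cos y = cos (2 * π - y) := by rw [Real.cos_two_pi_sub]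
    rw [e]
    exact Real.cos_le_cos_of_nonneg_of_le_pi h0 (by linarith) (by linarith)

lemma cos_le_u {m : ℕ} (hm : 0 < m) (u : ℤ) (b : ℕ) (h1' : b ≤ u.natAbs)
    (h2' : u.natAbs + b ≤ 2 * m) : cos ((u : ℝ) * (π / m)) ≤ cos ((b : ℝ) * (π / m)) := by
  have h1 : (b : ℤ) ≤ |u| := by rw [Int.abs_eq_natAbs]; omega
  have h2 : |u| ≤ 2 * m - b := by rw [Int.abs_eq_natAbs]; omega
  have hm0 : (0:ℝ) < m := by exact_mod_cast hm
  have hθ : 0 < π / m := by positivity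
  have e : cos ((u : ℝ) * (π / m)) = cos (|(u : ℝ)| * (π / m)) := by
    rcases abs_choice (u : ℝ) with h | h <;> rw [h]
    rw [neg_mul, Real.cos_neg]
  rw [e]
  have h1' : (b : ℝ) ≤ |(u : ℝ)| := by exact_mod_cast h1
  have h2' : |(u : ℝ)| ≤ 2 * m - b := by exact_mod_cast h2
  apply cos_le_of (by positivity) (by gcongr)
  have e2 : 2 * π - (b : ℝ) * (π / m) = (2 * m - b) * (π / m) := by field_simp
  rw [e2]
  gcongr

lemma cos_eq_u {m : ℕ} (hm : 0 < m) (u : ℤ) (b : ℕ)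
    (h' : u.natAbs = b ∨ u.natAbs + b = 2 * m) :
    cos ((u : ℝ) * (π / m)) = cos ((b : ℝ) * (π / m)) := by
  have h : |u| = b ∨ |u| = 2 * m - b := by rw [Int.abs_eq_natAbs]; omega
  have hm0 : (0:ℝ) < m := by exact_mod_cast hm
  have e : cos ((u : ℝ) * (π / m)) = cos (|(u : ℝ)| * (π / m)) := by
    rcases abs_choice (u : ℝ) with h | h <;> rw [h]
    rw [neg_mul, Real.cos_neg]
  rw [e]
  rcases h with h | h
  · have h' : |(u : ℝ)| = b := by exact_mod_cast h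
    rw [h']
  · have h' : |(u : ℝ)| = 2 * m - b := by exact_mod_cast h
    rw [h']
    have e2 : (2 * (m:ℝ) - b) * (π / m) = 2 * π - (b : ℝ) * (π / m) := by field_simp
    rw [e2, Real.cos_two_pi_sub]

/-- the data -/
structure Dat (m : ℕ) (ρ s C : ℝ) : Prop where
  ρ1 : 1 < ρ
  s0 : 0 < s
  C1 : 1 / 2 < C
  sC : s ^ 2 + C ^ 2 = 1
  s2 : 4 * s ^ 2 ≤ 1
  hρ : (1 - 2 * s ^ 2) * (1 + ρ ^ 2) = 2 * C * ρ
  cos1 : cos (((1 : ℕ) : ℝ) * (π / m)) = C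
  cos2 : cos (((2 : ℕ) : ℝ) * (π / m)) = 1 - 2 * s ^ 2
  cos3 : cos (((3 : ℕ) : ℝ) * (π / m)) = 4 * C ^ 3 - 3 * C
  cos4 : cos (((4 : ℕ) : ℝ) * (π / m)) = 2 * (1 - 2 * s ^ 2) ^ 2 - 1

lemma exists_dat {m : ℕ} (hm : 6 ≤ m) : ∃ ρ s C : ℝ, Dat m ρ s C := by
  have hm0 : (6:ℝ) ≤ m := by exact_mod_cast hm
  set θ : ℝ := π / m with hθ
  have hθ0 : 0 < θ := by positivity
  have hθ1 : θ ≤ π / 6 := by
    rw [hθ]
    gcongr
  have hs0 : 0 < sin θ := Real.sin_pos_of_pos_of_lt_pi hθ0 (by linarith [Real.pi_pos])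
  have hs1 : sin θ ≤ 1 / 2 := by
    rw [← Real.sin_pi_div_six]
    exact Real.sin_le_sin_of_le_of_le_pi_div_two (by linarith [Real.pi_pos])
      (by linarith [Real.pi_pos]) hθ1
  have hC1 : 1 / 2 < cos θ := by
    rw [← Real.cos_pi_div_three]
    exact Real.cos_lt_cos_of_nonneg_of_le_pi hθ0.le (by linarith [Real.pi_pos])
      (by linarith [Real.pi_pos])
  have hsC := Real.sin_sq_add_cos_sq θ
  have hs2 : 4 * sin θ ^ 2 ≤ 1 := by nlinarith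
  have hClt : cos θ < 1 := by nlinarith [sq_nonneg (cos θ - 1)]
  set q : ℝ := cos θ / (1 - 2 * sin θ ^ 2) with hq
  have hD : 0 < 1 - 2 * sin θ ^ 2 := by linarith
  have hq1 : 1 < q := by
    rw [hq, lt_div_iff₀ hD]
    nlinarith
  have hsq : 0 ≤ q ^ 2 - 1 := by nlinarith
  have hss := Real.sq_sqrt hsq
  have hs0' := Real.sqrt_nonneg (q ^ 2 - 1)
  have hqD : q * (1 - 2 * sin θ ^ 2) = cos θ := by
    rw [hq]; field_simp
  refine ⟨q + sqrt (q ^ 2 - 1), sin θ, cos θ, by linarith, hs0, hC1, hsC, hs2, ?_, ?_, ?_, ?_, ?_⟩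
  · have e1 : 1 + (q + sqrt (q ^ 2 - 1)) ^ 2 = 2 * q * (q + sqrt (q ^ 2 - 1)) := by
      linear_combination hss
    rw [e1]
    linear_combination 2 * (q + sqrt (q ^ 2 - 1)) * hqD
  · rw [Nat.cast_one, one_mul]
  · push_cast
    rw [Real.cos_two_mul]
    linear_combination 2 * hsC
  · push_cast
    rw [Real.cos_three_mul]
  · push_cast
    rw [show (4:ℝ) * θ = 2 * (2 * θ) by ring, Real.cos_two_mul, Real.cos_two_mul]
    have : cos θ ^ 2 = 1 - sin θ ^ 2 := by linarith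
    rw [this]
    ring

/-! ### The circles -/

/-- the point with the given polar coordinates -/
noncomputable def pl (a α : ℝ) : ℂ := ⟨a * cos α, a * sin α⟩

lemma nsq (a b α β : ℝ) : ‖pl a α - pl b β‖ ^ 2 = a ^ 2 + b ^ 2 - 2 * a * b * cos (α - β) := by
  rw [Complex.sq_norm, Complex.normSq_apply, Real.cos_sub]
  simp only [pl, Complex.sub_re, Complex.sub_im]
  have h1 := Real.sin_sq_add_cos_sq α
  have h2 := Real.sin_sq_add_cos_sq β
  linear_combination a ^ 2 * h1 + b ^ 2 * h2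

lemma nsq0 (a α : ℝ) : ‖pl a α‖ ^ 2 = a ^ 2 := by
  rw [Complex.sq_norm, Complex.normSq_apply]
  simp only [pl]
  have h1 := Real.sin_sq_add_cos_sq α
  linear_combination a ^ 2 * h1

/-- the angle of a ring circle -/
noncomputable def an (m : ℕ) (j l : ℕ) : ℝ := ((2 * l + j : ℕ) : ℝ) * (π / m)

/-- the centres -/
noncomputable def cc (m : ℕ) (ρ : ℝ) : Fin m × Option (Fin m) → ℂ
  | (j, some l) => pl (ρ ^ j.val) (an m j.val l.val)
  | (_, none) => 0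

/-- the radii -/
noncomputable def rr (m : ℕ) (ρ s : ℝ) : Fin m × Option (Fin m) → ℝ
  | (j, some _) => ρ ^ j.val * (sqrt 2 * s)
  | (j, none) => ρ ^ j.val * sqrt (1 - 2 * s ^ 2)

/-- orthogonal, outside each other, or one inside the other -/
def Rel (c c' : ℂ) (r r' : ℝ) : Prop :=
  ‖c - c'‖ ^ 2 = r ^ 2 + r' ^ 2 ∨ (r + r') ^ 2 < ‖c - c'‖ ^ 2 ∨ ‖c - c'‖ ^ 2 < (r - r') ^ 2

lemma Rel.symm {c c' : ℂ} {r r' : ℝ} (h : Rel c c' r r') : Rel c' c r' r := by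
  unfold Rel at h ⊢
  rw [norm_sub_rev c' c, add_comm (r' ^ 2), add_comm r' r]
  have e : (r' - r) ^ 2 = (r - r') ^ 2 := by ring
  rw [e]
  exact h

section

variable {m : ℕ} {ρ s C : ℝ} (hD : Dat m ρ s C)
include hD

lemma orth_ring {j l j' l' : ℕ} {y : ℝ} (hy : ρ ^ j' = ρ ^ j * y)
    (h : (1 - 2 * s ^ 2) * (1 + y ^ 2) = 2 * y * cos (an m j l - an m j' l')) :
    ‖pl (ρ ^ j) (an m j l) - pl (ρ ^ j') (an m j' l')‖ ^ 2 =
      (ρ ^ j * (sqrt 2 * s)) ^ 2 + (ρ ^ j' * (sqrt 2 * s)) ^ 2 := by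
  have h2 : (sqrt 2) ^ 2 = 2 := Real.sq_sqrt (by norm_num)
  rw [nsq, hy]
  linear_combination (ρ ^ j) ^ 2 * h - ((ρ ^ j) ^ 2 * s ^ 2 + (ρ ^ j * y) ^ 2 * s ^ 2) * h2

lemma far_ring {j l j' l' : ℕ} {y : ℝ} (hy : ρ ^ j' = ρ ^ j * y)
    (h : 2 * y * cos (an m j l - an m j' l') + 4 * y * s ^ 2 < (1 - 2 * s ^ 2) * (1 + y ^ 2)) :
    (ρ ^ j * (sqrt 2 * s) + ρ ^ j' * (sqrt 2 * s)) ^ 2 <
      ‖pl (ρ ^ j) (an m j l) - pl (ρ ^ j') (an m j' l')‖ ^ 2 := by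
  have h2 : (sqrt 2) ^ 2 = 2 := Real.sq_sqrt (by norm_num)
  have hρ0 : 0 < ρ := by linarith [hD.ρ1]
  have hA : 0 < (ρ ^ j) ^ 2 := by positivity
  rw [nsq, hy]
  have h3 := mul_lt_mul_of_pos_left h hA
  have e : (ρ ^ j * (sqrt 2 * s) + ρ ^ j * y * (sqrt 2 * s)) ^ 2 =
      (ρ ^ j) ^ 2 * (1 + y) ^ 2 * s ^ 2 * 2 := by
    linear_combination (ρ ^ j) ^ 2 * (1 + y) ^ 2 * s ^ 2 * h2
  rw [e]
  nlinarith

lemma ang (j l j' l' : ℕ) : an m j l - an m j' l' =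
    (((2 * l + j : ℤ) - (2 * l' + j') : ℤ) : ℝ) * (π / m) := by
  unfold an
  push_cast
  ring

lemma pow_ge {k : ℕ} (hk : 2 ≤ k) : ρ ^ 2 ≤ ρ ^ k := pow_le_pow_right₀ hD.ρ1.le hk

lemma rel_ring (hm : 6 ≤ m) {j l j' l' : ℕ} (hl : l < m) (hl' : l' < m) (hjj : j ≤ j')
    (hne : j = j' → l ≠ l') :
    Rel (pl (ρ ^ j) (an m j l)) (pl (ρ ^ j') (an m j' l')) (ρ ^ j * (sqrt 2 * s))
      (ρ ^ j' * (sqrt 2 * s)) := by
  obtain ⟨ρ1, s0, C1, sC, s2, hρ, cos1, cos2, cos3, cos4⟩ := id hD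
  have hρ0 : 0 < ρ := by linarith
  have hm0 : 0 < m := by omega
  have hs0 : 0 < s ^ 2 := by positivity
  obtain ⟨k, rfl⟩ := Nat.exists_eq_add_of_le hjj
  have hpow : ρ ^ (j + k) = ρ ^ j * ρ ^ k := pow_add _ _ _
  rcases Nat.lt_or_ge k 2 with hk | hk
  · interval_cases k
    · -- the same ring
      have hne' : l ≠ l' := hne rfl
      by_cases hnb : ((2 * l + j : ℤ) - (2 * l' + (j + 0 : ℕ)) : ℤ).natAbs = 2 ∨
          ((2 * l + j : ℤ) - (2 * l' + (j + 0 : ℕ)) : ℤ).natAbs + 2 = 2 * m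
      · left
        apply orth_ring hD hpow
        rw [ang hD, cos_eq_u hm0 _ 2 hnb, cos2]
        ring
      · right; left
        apply far_ring hD hpow
        have h1 := cos_le_u hm0 ((2 * l + j : ℤ) - (2 * l' + (j + 0 : ℕ))) 4 (by omega) (by omega)
        rw [cos4] at h1
        rw [ang hD]
        nlinarith
    · -- neighbouring rings
      by_cases hnb : ((2 * l + j : ℤ) - (2 * l' + (j + 1 : ℕ)) : ℤ).natAbs = 1 ∨
          ((2 * l + j : ℤ) - (2 * l' + (j + 1 : ℕ)) : ℤ).natAbs + 1 = 2 * m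
      · left
        apply orth_ring hD hpow
        rw [ang hD, cos_eq_u hm0 _ 1 hnb, cos1, pow_one, hρ]
        ring
      · right; left
        apply far_ring hD hpow
        have h1 := cos_le_u hm0 ((2 * l + j : ℤ) - (2 * l' + (j + 1 : ℕ))) 3 (by omega) (by omega)
        rw [cos3] at h1
        rw [ang hD, pow_one, hρ]
        have h2 : cos ((((2 * l + j : ℤ) - (2 * l' + (j + 1 : ℕ)) : ℤ) : ℝ) * (π / m)) +
            2 * s ^ 2 < C := by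
          nlinarith
        nlinarith
  · right; left
    apply far_ring hD hpow
    have h1 := Real.cos_le_one (an m j l - an m (j + k) l')
    have hz := pow_ge hD hk
    set y : ℝ := ρ ^ k with hy
    have hz1 : 1 < ρ ^ 2 := one_lt_pow₀ ρ1 (by norm_num)
    have hy0 : 0 < y := by positivity
    have hC2 : 0 < 1 - 2 * s ^ 2 := by linarith
    -- the case `y = ρ ^ 2`
    have h2 : 2 * ρ ^ 2 * (1 + 2 * s ^ 2) < (1 - 2 * s ^ 2) * (1 + (ρ ^ 2) ^ 2) := by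
      have e1 : (1 - 2 * s ^ 2) * ((1 - 2 * s ^ 2) * (1 + (ρ ^ 2) ^ 2)) =
          4 * C ^ 2 * ρ ^ 2 - 2 * (1 - 2 * s ^ 2) ^ 2 * ρ ^ 2 := by
        linear_combination ((1 - 2 * s ^ 2) * (1 + ρ ^ 2) + 2 * C * ρ) * hρ
      have e2 : (1 - 2 * s ^ 2) * (2 * ρ ^ 2 * (1 + 2 * s ^ 2)) <
          (1 - 2 * s ^ 2) * ((1 - 2 * s ^ 2) * (1 + (ρ ^ 2) ^ 2)) := by
        rw [e1]
        have hC : C ^ 2 = 1 - s ^ 2 := by linarith
        rw [hC]
        have : 0 < ρ ^ 2 * s ^ 2 := by positivity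
        nlinarith
      exact lt_of_mul_lt_mul_left e2 hC2.le
    have h3 : y * (2 * ρ ^ 2 * (1 + 2 * s ^ 2)) < ρ ^ 2 * ((1 - 2 * s ^ 2) * (1 + y ^ 2)) := by
      have e3 : y * (2 * ρ ^ 2 * (1 + 2 * s ^ 2)) < y * ((1 - 2 * s ^ 2) * (1 + (ρ ^ 2) ^ 2)) :=
        mul_lt_mul_of_pos_left h2 hy0
      have e4 : 0 ≤ (y - ρ ^ 2) * (y * ρ ^ 2 - 1) := by
        apply mul_nonneg (by linarith)
        nlinarith
      nlinarith
    have h4 : 2 * y * (1 + 2 * s ^ 2) < (1 - 2 * s ^ 2) * (1 + y ^ 2) := by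
      have h5 : ρ ^ 2 * (2 * y * (1 + 2 * s ^ 2)) < ρ ^ 2 * ((1 - 2 * s ^ 2) * (1 + y ^ 2)) := by
        linarith
      exact lt_of_mul_lt_mul_left h5 (by positivity)
    nlinarith

lemma conc_ineq {y : ℝ} (hy : ρ ≤ y) :
    2 * (sqrt 2 * s) * sqrt (1 - 2 * s ^ 2) * y < (1 - 2 * s ^ 2) * (y ^ 2 - 1) := by
  obtain ⟨ρ1, s0, C1, sC, s2, hρ, cos1, cos2, cos3, cos4⟩ := id hD
  have hρ0 : 0 < ρ := by linarith
  have hC2 : 0 < 1 - 2 * s ^ 2 := by linarith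
  have h2 : (sqrt 2) ^ 2 = 2 := Real.sq_sqrt (by norm_num)
  have h3 : (sqrt (1 - 2 * s ^ 2)) ^ 2 = 1 - 2 * s ^ 2 := Real.sq_sqrt hC2.le
  set w : ℝ := 2 * (sqrt 2 * s) * sqrt (1 - 2 * s ^ 2) with hw
  have hw0 : 0 ≤ w := by positivity
  have hw2 : w ^ 2 = 8 * s ^ 2 * (1 - 2 * s ^ 2) := by
    rw [hw]
    have e : (2 * (sqrt 2 * s) * sqrt (1 - 2 * s ^ 2)) ^ 2 =
        4 * s ^ 2 * (sqrt 2) ^ 2 * (sqrt (1 - 2 * s ^ 2)) ^ 2 := by ring
    rw [e, h2, h3]; ring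
  have hρ2 : 1 < ρ ^ 2 := one_lt_pow₀ ρ1 (by norm_num)
  have h4 : w * ρ < (1 - 2 * s ^ 2) * (ρ ^ 2 - 1) := by
    apply lt_of_pow_lt_pow_left₀ 2 (mul_nonneg hC2.le (by linarith))
    have e1 : ((1 - 2 * s ^ 2) * (ρ ^ 2 - 1)) ^ 2 =
        4 * C ^ 2 * ρ ^ 2 - 4 * (1 - 2 * s ^ 2) ^ 2 * ρ ^ 2 := by
      linear_combination ((1 - 2 * s ^ 2) * (1 + ρ ^ 2) + 2 * C * ρ) * hρ
    rw [e1, mul_pow, hw2]
    have hC : C ^ 2 = 1 - s ^ 2 := by linarith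
    rw [hC]
    have : 0 < ρ ^ 2 * s ^ 2 := by positivity
    nlinarith
  have hy0 : 0 < y := by linarith
  have h5 : 0 ≤ (y - ρ) * (y * ρ + 1) := mul_nonneg (by linarith) (by positivity)
  have h6 : y * (w * ρ) < y * ((1 - 2 * s ^ 2) * (ρ ^ 2 - 1)) := mul_lt_mul_of_pos_left h4 hy0
  have h7 : ρ * (w * y) < ρ * ((1 - 2 * s ^ 2) * (y ^ 2 - 1)) := by
    nlinarith
  exact lt_of_mul_lt_mul_left h7 hρ0.le

lemma rel_conc {j l i : ℕ} :
    Rel (pl (ρ ^ j) (an m j l)) 0 (ρ ^ j * (sqrt 2 * s)) (ρ ^ i * sqrt (1 - 2 * s ^ 2)) := by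
  obtain ⟨ρ1, s0, C1, sC, s2, hρ, cos1, cos2, cos3, cos4⟩ := id hD
  have hρ0 : 0 < ρ := by linarith
  have hC2 : 0 < 1 - 2 * s ^ 2 := by linarith
  have h2 : (sqrt 2) ^ 2 = 2 := Real.sq_sqrt (by norm_num)
  have h3 : (sqrt (1 - 2 * s ^ 2)) ^ 2 = 1 - 2 * s ^ 2 := Real.sq_sqrt hC2.le
  unfold Rel
  rw [sub_zero, nsq0]
  rcases lt_trichotomy i j with h | h | h
  · right; left
    obtain ⟨k, rfl⟩ := Nat.exists_eq_add_of_lt h
    have hy : ρ ≤ ρ ^ (k + 1) := by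
      calc ρ = ρ ^ 1 := (pow_one ρ).symm
        _ ≤ ρ ^ (k + 1) := pow_le_pow_right₀ ρ1.le (by omega)
    have hc := conc_ineq hD hy
    have hpow : ρ ^ (i + k + 1) = ρ ^ i * ρ ^ (k + 1) := by rw [add_assoc, pow_add]
    rw [hpow]
    set y : ℝ := ρ ^ (k + 1)
    have hA : 0 < (ρ ^ i) ^ 2 := by positivity
    have h4 := mul_lt_mul_of_pos_left hc hA
    have e : (ρ ^ i * y * (sqrt 2 * s) + ρ ^ i * sqrt (1 - 2 * s ^ 2)) ^ 2 =
        (ρ ^ i) ^ 2 * (2 * y ^ 2 * s ^ 2 + (1 - 2 * s ^ 2) +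
          2 * (sqrt 2 * s) * sqrt (1 - 2 * s ^ 2) * y) := by
      linear_combination (ρ ^ i) ^ 2 * y ^ 2 * s ^ 2 * h2 + (ρ ^ i) ^ 2 * h3
    rw [e]
    nlinarith
  · left
    subst h
    linear_combination -((ρ ^ i) ^ 2 * s ^ 2) * h2 - (ρ ^ i) ^ 2 * h3
  · right; right
    obtain ⟨k, rfl⟩ := Nat.exists_eq_add_of_lt h
    have hy : ρ ≤ ρ ^ (k + 1) := by
      calc ρ = ρ ^ 1 := (pow_one ρ).symm
        _ ≤ ρ ^ (k + 1) := pow_le_pow_right₀ ρ1.le (by omega)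
    have hc := conc_ineq hD hy
    have hpow : ρ ^ (j + k + 1) = ρ ^ j * ρ ^ (k + 1) := by rw [add_assoc, pow_add]
    rw [hpow]
    set y : ℝ := ρ ^ (k + 1)
    have hA : 0 < (ρ ^ j) ^ 2 := by positivity
    have h4 := mul_lt_mul_of_pos_left hc hA
    have e : (ρ ^ j * (sqrt 2 * s) - ρ ^ j * y * sqrt (1 - 2 * s ^ 2)) ^ 2 =
        (ρ ^ j) ^ 2 * (2 * s ^ 2 + y ^ 2 * (1 - 2 * s ^ 2) -
          2 * (sqrt 2 * s) * sqrt (1 - 2 * s ^ 2) * y) := by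
      linear_combination (ρ ^ j) ^ 2 * s ^ 2 * h2 + (ρ ^ j) ^ 2 * y ^ 2 * h3
    rw [e]
    nlinarith

lemma rel_all (hm : 6 ≤ m) (i i' : Fin m × Option (Fin m)) (h : i ≠ i') :
    Rel (cc m ρ i) (cc m ρ i') (rr m ρ s i) (rr m ρ s i') := by
  obtain ⟨j, a⟩ := i
  obtain ⟨j', a'⟩ := i'
  cases a with
  | some l =>
    cases a' with
    | some l' =>
      rcases le_total j.val j'.val with hjj | hjj
      · apply rel_ring hD hm l.2 l'.2 hjj
        intro e e2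
        exact h (by rw [Fin.ext e, Fin.ext e2])
      · apply Rel.symm
        apply rel_ring hD hm l'.2 l.2 hjj
        intro e e2
        exact h (by rw [Fin.ext e, Fin.ext e2])
    | none => exact rel_conc hD
  | none =>
    cases a' with
    | some l' => exact (rel_conc hD).symm
    | none =>
      right; right
      obtain ⟨ρ1, s0, C1, sC, s2, hρ, cos1, cos2, cos3, cos4⟩ := id hD
      have hC2 : 0 < 1 - 2 * s ^ 2 := by linarith
      have hw : 0 < sqrt (1 - 2 * s ^ 2) := Real.sqrt_pos.2 hC2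
      have hne : ρ ^ j.val ≠ ρ ^ j'.val := by
        intro e
        have := (pow_right_injective₀ (by linarith : 0 < ρ) (by linarith : ρ ≠ 1)) e
        exact h (by rw [Fin.ext this])
      change ‖(0:ℂ) - 0‖ ^ 2 < (ρ ^ j.val * sqrt (1 - 2 * s ^ 2) -
        ρ ^ j'.val * sqrt (1 - 2 * s ^ 2)) ^ 2
      rw [sub_zero, norm_zero, ← sub_mul]
      have : (ρ ^ j.val - ρ ^ j'.val) * sqrt (1 - 2 * s ^ 2) ≠ 0 :=
        mul_ne_zero (sub_ne_zero.2 hne) hw.ne'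
      rw [zero_pow two_ne_zero]
      exact lt_of_le_of_ne (sq_nonneg _) (Ne.symm (pow_ne_zero 2 this))

end

/-! ### The pairs -/

/-- the next number -/
def nx {m : ℕ} (l : Fin m) : Fin m :=
  if h : l.val + 1 < m then ⟨l.val + 1, h⟩ else ⟨0, by have := l.2; omega⟩

lemma nx_val {m : ℕ} (l : Fin m) :
    (l.val + 1 < m ∧ (nx l).val = l.val + 1) ∨ (l.val + 1 = m ∧ (nx l).val = 0) := by
  unfold nx
  have := l.2
  split_ifs with h
  · left; exact ⟨h, rfl⟩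
  · right; exact ⟨by omega, rfl⟩

/-- lower ring -/
def lo {m : ℕ} (j : Fin (m - 1)) : Fin m := ⟨j.val, by have := j.2; omega⟩

/-- upper ring -/
def up {m : ℕ} (j : Fin (m - 1)) : Fin m := ⟨j.val + 1, by have := j.2; omega⟩

/-- index of the pairs -/
abbrev Ix (m : ℕ) : Type := (Fin m × Fin m) ⊕ ((Fin (m - 1) × Fin m) ⊕
  ((Fin (m - 1) × Fin m) ⊕ (Fin m × Fin m)))

/-- the pairs -/
def pr {m : ℕ} : Ix m → (Fin m × Option (Fin m)) × (Fin m × Option (Fin m))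
  | .inl (j, l) => ((j, some l), (j, some (nx l)))
  | .inr (.inl (j, l)) => ((lo j, some l), (up j, some l))
  | .inr (.inr (.inl (j, l))) => ((lo j, some (nx l)), (up j, some l))
  | .inr (.inr (.inr (j, l))) => ((j, some l), (j, none))

lemma pr_inj {m : ℕ} (hm : 6 ≤ m) : Function.Injective (pr (m := m)) := by
  rintro (⟨j, l⟩ | ⟨j, l⟩ | ⟨j, l⟩ | ⟨j, l⟩) (⟨j', l'⟩ | ⟨j', l'⟩ | ⟨j', l'⟩ | ⟨j', l'⟩) h <;>
    simp only [pr, Prod.mk.injEq, Option.some.injEq, Fin.ext_iff, lo, up, reduceCtorEq,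
      and_false, false_and] at h <;>
    have h1 := nx_val l <;> have h2 := nx_val l'
  · have e1 : j = j' := Fin.ext (by omega)
    have e2 : l = l' := Fin.ext (by omega)
    rw [e1, e2]
  · exfalso; omega
  · exfalso; omega
  · exfalso; omega
  · have e1 : j = j' := Fin.ext (by omega)
    have e2 : l = l' := Fin.ext (by omega)
    rw [e1, e2]
  · exfalso; omega
  · exfalso; omega
  · exfalso; omega
  · have e1 : j = j' := Fin.ext (by omega)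
    have e2 : l = l' := Fin.ext (by omega)
    rw [e1, e2]
  · have e1 : j = j' := Fin.ext (by omega)
    have e2 : l = l' := Fin.ext (by omega)
    rw [e1, e2]

lemma pr_swap {m : ℕ} (hm : 6 ≤ m) (a b : Ix m) : (pr a).swap ≠ pr b := by
  rcases a with (⟨j, l⟩ | ⟨j, l⟩ | ⟨j, l⟩ | ⟨j, l⟩) <;>
    rcases b with (⟨j', l'⟩ | ⟨j', l'⟩ | ⟨j', l'⟩ | ⟨j', l'⟩) <;>
    intro h <;>
    simp only [pr, Prod.swap_prod_mk, Prod.mk.injEq, Option.some.injEq, Fin.ext_iff, lo, up,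
      reduceCtorEq, and_false, false_and] at h <;>
    have h1 := nx_val l <;> have h2 := nx_val l' <;> omega

lemma pr_ne {m : ℕ} (hm : 6 ≤ m) (a : Ix m) : (pr a).1 ≠ (pr a).2 := by
  rcases a with (⟨j, l⟩ | ⟨j, l⟩ | ⟨j, l⟩ | ⟨j, l⟩) <;> intro h <;>
    simp only [pr, Prod.mk.injEq, Option.some.injEq, Fin.ext_iff, lo, up,
      reduceCtorEq, and_false] at h <;>
    have h1 := nx_val l <;> omega

lemma pr_orth {m : ℕ} (hm : 6 ≤ m) {ρ s C : ℝ} (hD : Dat m ρ s C) (a : Ix m) :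
    ‖cc m ρ (pr a).1 - cc m ρ (pr a).2‖ ^ 2 =
      rr m ρ s (pr a).1 ^ 2 + rr m ρ s (pr a).2 ^ 2 := by
  obtain ⟨ρ1, s0, C1, sC, s2, hρ, cos1, cos2, cos3, cos4⟩ := id hD
  have hm0 : 0 < m := by omega
  rcases a with (⟨j, l⟩ | ⟨j, l⟩ | ⟨j, l⟩ | ⟨j, l⟩)
  · have h1 := nx_val l
    apply orth_ring hD (y := 1) (mul_one _).symm
    rw [ang hD, cos_eq_u hm0 _ 2 (by omega), cos2]
    ring
  · apply orth_ring hD (y := ρ) (pow_succ _ _)
    rw [ang hD, cos_eq_u hm0 _ 1 (by left; simp only [lo]; push_cast; omega), cos1, hρ]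
    ring
  · have h1 := nx_val l
    apply orth_ring hD (y := ρ) (pow_succ _ _)
    rw [ang hD, cos_eq_u hm0 _ 1 (by simp only [lo]; push_cast; omega), cos1, hρ]
    ring
  · have hC2 : 0 < 1 - 2 * s ^ 2 := by linarith
    have h2 : (sqrt 2) ^ 2 = 2 := Real.sq_sqrt (by norm_num)
    have h3 : (sqrt (1 - 2 * s ^ 2)) ^ 2 = 1 - 2 * s ^ 2 := Real.sq_sqrt hC2.le
    change ‖pl (ρ ^ j.val) (an m j.val l.val) - 0‖ ^ 2 = (ρ ^ j.val * (sqrt 2 * s)) ^ 2 +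
      (ρ ^ j.val * sqrt (1 - 2 * s ^ 2)) ^ 2
    rw [sub_zero, nsq0]
    linear_combination -((ρ ^ j.val) ^ 2 * s ^ 2) * h2 - (ρ ^ j.val) ^ 2 * h3

open Pool.Agent.U765.OC

theorem t_RING : S_RING := by
  intro m hm
  classical
  obtain ⟨ρ, s, C, hD⟩ := exists_dat hm
  obtain ⟨ρ1, s0, C1, sC, s2, hρ, cos1, cos2, cos3, cos4⟩ := id hD
  have hC2 : 0 < 1 - 2 * s ^ 2 := by linarith
  refine ⟨cc m ρ, rr m ρ s, Finset.univ.image (pr (m := m)), ?_, ?_, ?_, ?_⟩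
  · rintro ⟨j, _ | l⟩
    · have hw : 0 < sqrt (1 - 2 * s ^ 2) := Real.sqrt_pos.2 hC2
      change 0 < ρ ^ j.val * sqrt (1 - 2 * s ^ 2)
      positivity
    · change 0 < ρ ^ j.val * (sqrt 2 * s)
      positivity
  · intro i i' h
    exact rel_all hD hm i i' h
  · intro x hx
    obtain ⟨a, -, rfl⟩ := Finset.mem_image.1 hx
    refine ⟨pr_ne hm a, pr_orth hm hD a, ?_⟩
    intro h
    obtain ⟨b, -, hb⟩ := Finset.mem_image.1 h
    exact pr_swap hm a b hb.symm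
  · rw [Finset.card_image_of_injective _ (pr_inj hm), Finset.card_univ]
    simp only [Fintype.card_sum, Fintype.card_prod, Fintype.card_fin]
    obtain ⟨n, rfl⟩ := Nat.exists_eq_add_of_le hm
    have e : 6 + n - 1 = 5 + n := by omega
    rw [e]
    nlinarith

end Pool.Agent.U324.OC.RING
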